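import Pool.Agent.Lib_helper40.MC.M

/-!
# exceptional curve s1: the certificate
-/

set_option autoImplicit false
set_option maxRecDepth 100000

namespace Pool.Agent.MCX6b

open Pool.Agent.KC72 Pool.Agent.MC

/-- the classes `(f, 1 - f)` -/
def x6b_cls : List (Mo × Mo) := [
  ((true, [.ofNat 0, .ofNat 1, .negSucc 0, .negSucc 0, .ofNat 2, .negSucc 0, .ofNat 3]), (false, [.ofNat 0, .ofNat 2, .ofNat 1, .ofNat 1, .negSucc 1, .negSucc 0, .ofNat 3])),
  ((false, [.negSucc 1, .ofNat 0, .ofNat 0, .ofNat 1, .ofNat 0, .ofNat 0, .ofNat 0]), (false, [.negSucc 1, .negSucc 0, .ofNat 0, .ofNat 1, .ofNat 1, .ofNat 0, .ofNat 0])),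
  ((false, [.ofNat 0, .negSucc 0, .ofNat 1, .ofNat 1, .negSucc 0, .ofNat 1, .negSucc 0]), (false, [.ofNat 2, .ofNat 0, .ofNat 1, .ofNat 0, .negSucc 1, .ofNat 0, .negSucc 0])),
  ((false, [.negSucc 1, .ofNat 0, .ofNat 0, .ofNat 1, .ofNat 0, .ofNat 1, .negSucc 0]), (false, [.negSucc 1, .ofNat 0, .negSucc 0, .ofNat 0, .ofNat 2, .ofNat 0, .ofNat 0])),
  ((true, [.ofNat 0, .ofNat 1, .ofNat 0, .negSucc 0, .ofNat 0, .ofNat 0, .ofNat 0]), (false, [.ofNat 1, .ofNat 1, .ofNat 1, .negSucc 0, .negSucc 0, .ofNat 0, .ofNat 0])),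
  ((true, [.ofNat 1, .ofNat 0, .ofNat 0, .ofNat 0, .ofNat 0, .ofNat 0, .ofNat 1]), (false, [.ofNat 0, .ofNat 0, .ofNat 1, .ofNat 0, .ofNat 0, .ofNat 0, .ofNat 1])),
  ((true, [.negSucc 0, .ofNat 0, .ofNat 0, .ofNat 1, .ofNat 0, .ofNat 0, .ofNat 1]), (false, [.negSucc 0, .ofNat 0, .ofNat 0, .ofNat 0, .ofNat 1, .ofNat 0, .ofNat 1])),
  ((false, [.negSucc 0, .negSucc 0, .ofNat 0, .ofNat 0, .ofNat 1, .ofNat 1, .negSucc 0]), (false, [.negSucc 0, .negSucc 0, .negSucc 0, .ofNat 0, .ofNat 2, .ofNat 0, .ofNat 0])),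
  ((false, [.ofNat 1, .negSucc 0, .ofNat 0, .negSucc 0, .ofNat 1, .ofNat 0, .ofNat 0]), (true, [.ofNat 0, .negSucc 0, .negSucc 0, .negSucc 0, .ofNat 2, .ofNat 0, .negSucc 0])),
  ((false, [.ofNat 0, .negSucc 0, .ofNat 1, .ofNat 1, .negSucc 0, .ofNat 0, .ofNat 0]), (false, [.ofNat 0, .ofNat 0, .ofNat 1, .ofNat 1, .negSucc 1, .ofNat 0, .negSucc 0])),
  ((false, [.ofNat 1, .ofNat 0, .negSucc 0, .negSucc 0, .ofNat 1, .ofNat 0, .ofNat 0]), (true, [.ofNat 0, .negSucc 0, .negSucc 0, .ofNat 0, .ofNat 1, .ofNat 0, .negSucc 0])),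
  ((false, [.ofNat 0, .ofNat 1, .negSucc 0, .ofNat 0, .ofNat 0, .negSucc 0, .ofNat 1]), (true, [.ofNat 1, .ofNat 0, .negSucc 0, .ofNat 0, .ofNat 0, .negSucc 0, .ofNat 0])),
  ((false, [.ofNat 1, .negSucc 0, .ofNat 0, .negSucc 0, .ofNat 1, .ofNat 1, .negSucc 0]), (false, [.ofNat 0, .negSucc 1, .negSucc 0, .ofNat 0, .ofNat 2, .ofNat 0, .negSucc 0])),
  ((true, [.ofNat 1, .ofNat 0, .ofNat 0, .ofNat 0, .ofNat 0, .negSucc 0, .ofNat 2]), (false, [.ofNat 0, .ofNat 1, .ofNat 0, .ofNat 0, .ofNat 0, .negSucc 0, .ofNat 2])),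
  ((false, [.ofNat 0, .ofNat 1, .negSucc 0, .ofNat 0, .ofNat 0, .ofNat 0, .ofNat 0]), (false, [.ofNat 0, .ofNat 0, .negSucc 0, .ofNat 0, .ofNat 0, .ofNat 0, .negSucc 1])),
  ((true, [.ofNat 0, .ofNat 1, .ofNat 0, .negSucc 0, .ofNat 0, .ofNat 1, .negSucc 0]), (false, [.ofNat 0, .ofNat 2, .ofNat 1, .ofNat 0, .negSucc 1, .ofNat 0, .ofNat 0]))]

/-- five term relations -/
def x6b_rels : List Rel := [
  ⟨(1, 0), (9, 1), (2, 1), none, some (3, 1)⟩,
  ⟨(1, 0), (4, 5), (10, 0), some (6, 3), some (5, 3)⟩,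
  ⟨(11, 0), (4, 5), (7, 0), some (6, 2), some (2, 3)⟩,
  ⟨(1, 0), (11, 5), (10, 5), some (7, 3), some (12, 3)⟩,
  ⟨(13, 0), (8, 5), (7, 5), some (6, 3), some (3, 3)⟩,
  ⟨(8, 0), (9, 5), (6, 0), some (10, 3), some (14, 3)⟩,
  ⟨(8, 0), (4, 1), (15, 1), none, some (12, 1)⟩]

/-- the left inverse -/
def x6b_G : List (List (ℕ × ℕ × ℤ)) := [
  [(0, 1, .ofNat 0), (0, 2, .ofNat 0), (0, 3, .negSucc 0), (1, 2, .ofNat 0), (1, 3, .negSucc 0), (1, 4, .ofNat 0), (2, 3, .ofNat 0), (2, 4, .ofNat 0), (3, 4, .ofNat 1)],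
  [(0, 1, .ofNat 0), (0, 2, .ofNat 0), (0, 3, .ofNat 3), (1, 2, .ofNat 0), (1, 3, .ofNat 0), (1, 4, .ofNat 0), (2, 3, .ofNat 0), (2, 4, .ofNat 0), (3, 4, .negSucc 2)],
  [(0, 1, .ofNat 0), (0, 2, .ofNat 0), (0, 3, .negSucc 2), (1, 2, .negSucc 2), (1, 3, .negSucc 2), (1, 4, .negSucc 2), (2, 3, .ofNat 0), (2, 4, .ofNat 0), (3, 4, .ofNat 3)],
  [(0, 1, .ofNat 3), (0, 2, .ofNat 0), (0, 3, .negSucc 8), (1, 2, .negSucc 2), (1, 3, .negSucc 14), (1, 4, .negSucc 8), (2, 3, .negSucc 2), (2, 4, .negSucc 5), (3, 4, .ofNat 9)],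
  [(0, 1, .ofNat 0), (0, 2, .ofNat 0), (0, 3, .ofNat 3), (1, 2, .negSucc 2), (1, 3, .ofNat 3), (1, 4, .ofNat 0), (2, 3, .ofNat 0), (2, 4, .ofNat 3), (3, 4, .negSucc 2)],
  [(0, 1, .ofNat 0), (0, 2, .negSucc 2), (0, 3, .ofNat 9), (1, 2, .negSucc 2), (1, 3, .ofNat 9), (1, 4, .ofNat 3), (2, 3, .ofNat 6), (2, 4, .ofNat 9), (3, 4, .negSucc 8)],
  [(0, 1, .negSucc 2), (0, 2, .ofNat 0), (0, 3, .ofNat 3), (1, 2, .ofNat 0), (1, 3, .ofNat 12), (1, 4, .ofNat 6), (2, 3, .ofNat 6), (2, 4, .ofNat 6), (3, 4, .negSucc 5)],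
  [(0, 1, .negSucc 2), (0, 2, .ofNat 0), (0, 3, .ofNat 0), (1, 2, .ofNat 0), (1, 3, .ofNat 6), (1, 4, .ofNat 3), (2, 3, .ofNat 0), (2, 4, .ofNat 0), (3, 4, .ofNat 0)],
  [(0, 1, .ofNat 3), (0, 2, .ofNat 0), (0, 3, .negSucc 2), (1, 2, .negSucc 2), (1, 3, .negSucc 8), (1, 4, .negSucc 5), (2, 3, .ofNat 0), (2, 4, .negSucc 2), (3, 4, .ofNat 3)]]

/-- the certificate -/
def x6b : RCert where
  n := 7
  r := 5
  m := 9
  N := 16
  cls := x6b_cls
  rels := x6b_rels
  kb := 6
  ko := 3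
  o := 4
  Om := 0x1420851440c61031040c30c31040c51441031041041860c41050841030c40c40c41041050c31040c4104104105143105104104104104105104104104104105104104104104105104104104104105104104104104105104104104104105104104104104105104104104104105
  DG := .ofNat 3
  G := x6b_G
  Q := [(0, 1, 2), (0, 1, 3), (0, 1, 4), (0, 1, 5), (0, 1, 6), (0, 2, 3), (0, 2, 4), (0, 2, 5), (0, 2, 6), (0, 3, 4), (0, 3, 5), (0, 3, 6), (0, 4, 5), (0, 4, 6), (1, 2, 3), (1, 2, 4), (1, 2, 5), (1, 2, 6), (1, 3, 4), (1, 3, 5), (1, 3, 6), (1, 4, 5), (1, 4, 6), (2, 3, 4), (2, 3, 5), (2, 3, 6), (2, 4, 5), (2, 4, 6), (3, 4, 5), (3, 4, 6)]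
  T := [(4, false), (5, false), (5, true), (1, false), (6, false), (6, true), (3, true), (8, false), (1, true), (2, true), (3, false), (7, true), (4, true), (7, false), (8, true), (2, false), (0, false), (0, true), (14, false), (14, true), (9, false), (11, true), (9, true), (13, false), (13, true), (10, false), (10, true), (11, false), (15, false)]

/-- the tables -/
def x6b_t : RTab where
  MA := 3
  B := 4096
  Z := 2048
  P2 := [(0, 1), (0, 2), (0, 3), (1, 2), (1, 3), (1, 4), (2, 3), (2, 4), (3, 4)]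
  MB := [.ofNat 0x1000000000000fffffdffe000,
    .ofNat 0xffefffffefffffe002000000,
    .ofNat 0xfffffefffffeffe002000000,
    .negSucc 0x1001000000000ffffff000002,
    .negSucc 4098,
    .ofNat 0x1001000000000fffffe000006,
    .ofNat 0xfffffffffffefff001000000,
    .negSucc 0x1000ffffffffffffffeffffff,
    .ofNat 0xfffffefffffeffe001fff000]
  PM := [.negSucc 0x2ffe00000000002fffff4007ffffffffff3ffffa003ffffffffff9ffffe800ff400c017ffffffffffffffffffffffff,
    .ofNat 0x1fffffffdffffffff800000003ffffffffffffffffffffffffffffffffc0000000400000001ffffffff000,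
    .ofNat 0x3fefffffbffc0100200200000fffffdfffff000002004007ffffdff7ff7ffffc00000800003ff800ffe004007ff000,
    .negSucc 0x7fefffffc0000000400000000fffffdffffefff002000007fffffff7fffffffffffffffffffff800ffc004007fffff,
    .ofNat 0x1fffff7ffffffffff800002000007ffffffffff80000200000000001fffff7ffffdffffffffffe00000800,
    .ofNat 0x100000000000000003fffffffffffffffffffffbffffffffffc00000,
    .ofNat 0x400000001fffffffeffdfffff8000000000080000000000000000000000000000000000000000000000ffe00000000,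
    .negSucc 0x7feffffffffc00800ffffffffffffffffffffff002003fffffffdffbff800ffe000007fffffffc007ff000003fffff,
    .ofNat 0x3fffffffe003ff801ffe000007ffffdfffff7fffffffc00800001ffbff800001fffff7ffffe003ffffe00200400800]
  PR := [0xe00202c00c160061c290000000,
    0x203020040000000100402018,
    0x587122108182488e06084d3498,
    0xd040101821182008000009c6c0,
    0x220020208020200220800808,
    0x1000040000100100,
    0x40204820008000000000001800,
    0xd006400000190024c220061100,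
    0x40862808820108320220843248]
  S := 30
  p := 5
  a := 10
  c := 7
  d := 3
  XQ := [[0x10020040300003010040000100c04008020080400804000020080000004000020100300c01, 0x40200c0300c000080000002000010100000c0200c0400401008000000300c0400c0200c02, 0xc00008000100300c0100c03010000100201002008000100100c00000000000400c0000802, 0x400001004010000200c0400803000040000100803004040040000003000000000101000, 0, 0x20100000802004020080401002004030000000c000000200c000000400c010080400803, 0],
  [0x1003004000100300400010010040101002010010100000804008000000300c0400c0200802, 0x100200400000020080100c0200c03000030000100c00008010040000002008000000301000, 0x40000000804008020080200c01008010080100c000000200c000000300c020100200801, 0, 0, 0xc04008000100000c0100803010000100001002008000100100c00000000000400c0000802, 0x80200c0400c030080400c0101001008020000401002010000000000000004020100200001],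
  [0x10010040400802010030000400800008030080100001004010100000004010010080000402, 0xc0400c02008020080000801008030100200c010040100002004000000000c0400c0101002, 0xc040080100804004010000001000008010100000403004000000000001010020100000001, 0xc03008020040400c000000100c010100201004004010040400000000010000400c0200002, 0xc010040300402000010040101000004030100400c02008020040000004004010080001003, 0, 0],
  [0x40100100403008030100400402008020000100c030040300800000000000100c0400c02, 0xc0400c01004030080301002004000100200c000100301003000000000200c0400c0000002, 0x4020040300804000020080200c000080100c0300404010040080000003008020100000c01, 0, 0, 0, 0],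
  [0x80400c0100002000030000000003004000100100402000040040000004000000000101004, 0x80000c0000c03010010000400c0100c0200c030040000401000000000300c030040200004, 0x10030040200c04004020000400003000000000301004000030100000001008000000100400, 0, 0, 0x4000100000c01004020000100c0000c0200c040100000c020040000000000030040001004, 0x80200c030000200401000010040400404000040000100c04008000000100c010080300c03],
  [0x400010000040400403000030100400c0100c02004000080301001000000040400c0300403, 0x10020040300404000000000100c03010020080300c0101003010000000000c030040100404, 0, 0x1003004020100400c0400003000030000000c0200404004030000000002004000000100000, 0, 0x4040100100c03004020000100c0000c0200c040100200c020040001000000030040001004, 0],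
  [0x2000010000200c0000400004000080000c0000001008030000400804, 0, 0, 0, 0, 0, 0],
  [0x4000100000c0000402000010000000c0000c040100000c000040000000000030000001004, 0, 0, 0, 0, 0, 0],
  [0x4000100000c0000403000030000300c00010010100000c000040000000000020000101000, 0, 0, 0, 0, 0, 0]]
  K := 33
  p' := 5
  a' := 13
  c' := 10
  d' := 3
  XT := [[0x4002000c002003000000400200200100040000040008010004001000000c000004002001000000300100000060010000008008002, 0x4000800c0060010008008002000001000c0020040010000006000000800c00800200100000060020010010000002000000c002004, 0x3001000c002002001800c000002002000800600100100080040010018008008003001000400800000200080080020000000000003, 0x10020008000003001000c002002002000c004002000000c00400000100100060030020000002002002000c0040010000000002004, 0x300100080000040020004004002001000800800000200000000020020000004001000800c00400400100040060020000008004002, 0, 0x3001000400200200100100040000020004004003002000000400100100040060040020000002004002000c0000040000004004003],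
  [0x20000004008000001800c008002001800c0000000018004000003002000000400200180040060000018010008002, 0x20008004000000000000c00800300180080000000010000002004000001000400200000040000010018010000001, 0x8000004000001000000000100000100000000020010002002000801000000100100000040020018010004003, 0x4000000800600000080040060040008004000000000800800000100180000080040008008002000001000c006004, 0x20008004000000000000c00800300180080000000010000002004000001000400300000040000010010010000001, 0, 0x20004006000001800000000400000040000000008004008003002000400000000180000060030008000006001],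
  [0xc00800300100080040000010008000000001800c006001001000c00800300100040000040000010008003, 0x1800400600000200100020000018000000000000800400800400200040060010020008006003000000c006003, 0x1800400600400100100020000018004000000000800c0040040020004006001001000c0020030000008006004, 0x10020000008000002001000000000080040020040020000004000002000c0000000000008000000, 0x80000000010020000008000002001000000000000040000040000000004000002000c0000000000008000001, 0x10008002004000000c004000002000400000000100000080030020008002002000000c0060010000008002003, 0x8008002003001800c00400000200080000000010008006003001800800200200180100020010000004002003],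
  [0x2000000000000000000000000000004008000000000000000000200000080000000000000000, 0x4000000000000000000000000000000004000000000000000000000000000000000000000000000, 0x100000000000000000000000000000c004000000000000000000100100040000000000000000, 0x1800000000000000000000000000008006000000000400000000180000060000000000000000, 0, 0, 0],
  [0x1000000000000000000000000000000000000004, 1, 0, 0, 0, 0, 0],
  [8192, 0, 0x4000000, 0, 0, 0, 0],
  [0x80000000000000000, 0, 0, 0x80010000000000000, 0, 0, 0],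
  [0x8000000000000000000000000000000000000000000, 0, 0x2000002000000000000000000000000000000000000, 0, 0, 0, 0],
  [0x10000000000000000000000080000000000000000000000, 0x10000000000000000000000000000000000000000000000, 0, 0, 0, 0, 0]]

/-- an explicit class -/
def x6b_l0 : List Tm := [
  ⟨9, 0, [.ofNat 0, .ofNat 8, .ofNat 0, .ofNat 0, .ofNat 0, .ofNat 0, .ofNat 16]⟩,
  ⟨14, 0, [.ofNat 0, .ofNat 6, .ofNat 0, .ofNat 4, .negSucc 7, .ofNat 0, .ofNat 0]⟩,
  ⟨15, 0, [.ofNat 0, .negSucc 5, .ofNat 0, .ofNat 4, .ofNat 0, .ofNat 0, .ofNat 0]⟩,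
  ⟨0, 0, [.ofNat 0, .negSucc 2, .ofNat 0, .ofNat 2, .ofNat 0, .ofNat 0, .ofNat 0]⟩]

/-- its coordinates -/
def x6b_v0 : List (List ℤ) := [
  [.ofNat 0, .negSucc 2, .ofNat 0, .ofNat 2, .ofNat 0, .ofNat 0, .ofNat 0],
  [.ofNat 0, .negSucc 19, .ofNat 0, .ofNat 8, .ofNat 0, .ofNat 0, .negSucc 15],
  [.ofNat 0, .ofNat 8, .ofNat 0, .negSucc 7, .ofNat 8, .ofNat 0, .ofNat 16],
  [.ofNat 0, .ofNat 2, .ofNat 0, .negSucc 3, .ofNat 8, .ofNat 0, .ofNat 16],
  [.ofNat 0, .negSucc 11, .ofNat 0, .ofNat 0, .ofNat 8, .ofNat 0, .ofNat 0],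
  [.ofNat 0, .negSucc 11, .ofNat 0, .ofNat 0, .ofNat 8, .ofNat 0, .ofNat 0],
  [.ofNat 0, .ofNat 12, .ofNat 0, .negSucc 7, .ofNat 0, .ofNat 0, .ofNat 0],
  [.ofNat 0, .ofNat 12, .ofNat 0, .negSucc 7, .ofNat 0, .ofNat 0, .ofNat 0],
  [.ofNat 0, .negSucc 11, .ofNat 0, .ofNat 0, .ofNat 8, .ofNat 0, .ofNat 0]]

/-- an explicit class -/
def x6b_l1 : List Tm := [
  ⟨1, 0, [.ofNat 0, .ofNat 3, .negSucc 5, .ofNat 0, .ofNat 0, .negSucc 1, .ofNat 0]⟩,
  ⟨9, 0, [.ofNat 0, .negSucc 8, .ofNat 0, .ofNat 0, .ofNat 6, .ofNat 2, .ofNat 0]⟩,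
  ⟨5, 0, [.ofNat 0, .ofNat 0, .ofNat 0, .ofNat 0, .ofNat 3, .negSucc 0, .ofNat 6]⟩,
  ⟨14, 0, [.ofNat 0, .ofNat 0, .ofNat 0, .ofNat 0, .ofNat 0, .ofNat 1, .ofNat 0]⟩,
  ⟨7, 0, [.ofNat 0, .ofNat 0, .ofNat 3, .ofNat 0, .ofNat 0, .ofNat 0, .ofNat 3]⟩,
  ⟨10, 0, [.ofNat 0, .ofNat 0, .negSucc 11, .ofNat 0, .ofNat 6, .negSucc 3, .ofNat 0]⟩,
  ⟨0, 0, [.ofNat 0, .ofNat 0, .negSucc 1, .ofNat 0, .ofNat 0, .ofNat 0, .negSucc 2]⟩]

/-- its coordinates -/
def x6b_v1 : List (List ℤ) := [
  [.ofNat 0, .ofNat 0, .negSucc 1, .ofNat 0, .ofNat 0, .ofNat 0, .negSucc 2],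
  [.ofNat 0, .ofNat 12, .ofNat 6, .ofNat 0, .negSucc 11, .ofNat 0, .ofNat 0],
  [.ofNat 0, .negSucc 8, .ofNat 0, .ofNat 0, .ofNat 6, .ofNat 1, .ofNat 0],
  [.ofNat 0, .negSucc 8, .ofNat 0, .ofNat 0, .ofNat 6, .ofNat 1, .ofNat 0],
  [.ofNat 0, .ofNat 0, .ofNat 12, .ofNat 0, .negSucc 5, .ofNat 3, .ofNat 0],
  [.ofNat 0, .ofNat 0, .ofNat 12, .ofNat 0, .negSucc 2, .ofNat 2, .ofNat 6],
  [.ofNat 0, .ofNat 0, .negSucc 11, .ofNat 0, .ofNat 6, .negSucc 3, .ofNat 0],
  [.ofNat 0, .ofNat 0, .ofNat 3, .ofNat 0, .ofNat 0, .ofNat 0, .ofNat 3],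
  [.ofNat 0, .ofNat 0, .ofNat 0, .ofNat 0, .ofNat 0, .negSucc 0, .ofNat 0]]

/-- an explicit class -/
def x6b_l2 : List Tm := [
  ⟨6, 0, [.negSucc 8, .negSucc 5, .negSucc 2, .ofNat 6, .ofNat 6, .ofNat 0, .ofNat 0]⟩,
  ⟨7, 0, [.ofNat 9, .ofNat 6, .ofNat 3, .negSucc 5, .negSucc 5, .ofNat 0, .ofNat 0]⟩,
  ⟨10, 0, [.negSucc 8, .negSucc 5, .negSucc 2, .ofNat 6, .ofNat 6, .ofNat 0, .ofNat 0]⟩,
  ⟨0, 0, [.negSucc 2, .negSucc 1, .negSucc 0, .ofNat 2, .ofNat 2, .ofNat 0, .ofNat 0]⟩]

/-- its coordinates -/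
def x6b_v2 : List (List ℤ) := [
  [.negSucc 2, .negSucc 1, .negSucc 0, .ofNat 2, .ofNat 2, .ofNat 0, .ofNat 0],
  [.ofNat 9, .ofNat 6, .ofNat 3, .negSucc 5, .negSucc 5, .ofNat 0, .ofNat 0],
  [.ofNat 0, .ofNat 0, .ofNat 0, .ofNat 0, .ofNat 0, .ofNat 0, .ofNat 0],
  [.ofNat 0, .ofNat 0, .ofNat 0, .ofNat 0, .ofNat 0, .ofNat 0, .ofNat 0],
  [.ofNat 9, .ofNat 6, .ofNat 3, .negSucc 5, .negSucc 5, .ofNat 0, .ofNat 0],
  [.ofNat 9, .ofNat 6, .ofNat 3, .negSucc 5, .negSucc 5, .ofNat 0, .ofNat 0],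
  [.negSucc 17, .negSucc 11, .negSucc 5, .ofNat 12, .ofNat 12, .ofNat 0, .ofNat 0],
  [.ofNat 9, .ofNat 6, .ofNat 3, .negSucc 5, .negSucc 5, .ofNat 0, .ofNat 0],
  [.ofNat 0, .ofNat 0, .ofNat 0, .ofNat 0, .ofNat 0, .ofNat 0, .ofNat 0]]

/-- an explicit class -/
def x6b_l3 : List Tm := [
  ⟨6, 0, [.negSucc 8, .negSucc 2, .ofNat 3, .ofNat 3, .ofNat 3, .ofNat 3, .ofNat 0]⟩,
  ⟨7, 0, [.ofNat 9, .ofNat 3, .negSucc 2, .negSucc 2, .negSucc 2, .negSucc 2, .ofNat 0]⟩,
  ⟨10, 0, [.negSucc 8, .negSucc 2, .ofNat 3, .ofNat 3, .ofNat 3, .ofNat 3, .ofNat 0]⟩,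
  ⟨0, 0, [.negSucc 2, .negSucc 0, .ofNat 1, .ofNat 1, .ofNat 1, .ofNat 1, .ofNat 0]⟩]

/-- its coordinates -/
def x6b_v3 : List (List ℤ) := [
  [.negSucc 2, .negSucc 0, .ofNat 1, .ofNat 1, .ofNat 1, .ofNat 1, .ofNat 0],
  [.ofNat 9, .ofNat 3, .negSucc 2, .negSucc 2, .negSucc 2, .negSucc 2, .ofNat 0],
  [.ofNat 0, .ofNat 0, .ofNat 0, .ofNat 0, .ofNat 0, .ofNat 0, .ofNat 0],
  [.ofNat 0, .ofNat 0, .ofNat 0, .ofNat 0, .ofNat 0, .ofNat 0, .ofNat 0],
  [.ofNat 9, .ofNat 3, .negSucc 2, .negSucc 2, .negSucc 2, .negSucc 2, .ofNat 0],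
  [.ofNat 9, .ofNat 3, .negSucc 2, .negSucc 2, .negSucc 2, .negSucc 2, .ofNat 0],
  [.negSucc 17, .negSucc 5, .ofNat 6, .ofNat 6, .ofNat 6, .ofNat 6, .ofNat 0],
  [.ofNat 9, .ofNat 3, .negSucc 2, .negSucc 2, .negSucc 2, .negSucc 2, .ofNat 0],
  [.ofNat 0, .ofNat 0, .ofNat 0, .ofNat 0, .ofNat 0, .ofNat 0, .ofNat 0]]

/-- the explicit classes -/
def x6b_ll : List (List Tm) := [x6b_l0, x6b_l1, x6b_l2, x6b_l3]

/-- their coordinates -/
def x6b_vl : List (List (List ℤ)) := [x6b_v0, x6b_v1, x6b_v2, x6b_v3]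

end Pool.Agent.MCX6b
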