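import Pool.Agent.Lib_helper40.MC.X6b.Q
import Pool.Agent.Lib_helper40.MC.X6b.T

/-!
# exceptional curve s1: all checks
-/

set_option autoImplicit false
set_option maxRecDepth 100000

namespace Pool.Agent.MCX6b

open Pool.Agent.KC72 Pool.Agent.MC

theorem x6b_0 : NumX x6b x6b_t x6b_ll.length := by decide +kernel

theorem x6b_om : xm x6b.kb x6b.ko (x6b.m * x6b.N) x6b.Om = true := by decide +kernel

theorem x6b_b : cB x6b = true := by decide +kernel

theorem x6b_r0 : blk (cR x6b) x6b.rels 60 0 = true := by decide +kernel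

theorem x6b_r' : ∀ k < 1, blk (cR x6b) x6b.rels 60 k = true
  | 0, _ => x6b_r0
  | k + 1, h => absurd h (by omega)

theorem x6b_g : allI (fun c g => cG x6b.DG x6b_t.B x6b_t.MA x6b_t.P2 x6b_t.MB c g) x6b.G 0 = true := by decide +kernel

theorem x6b_g' : x6b.toCert.chk3' = true := by decide +kernel

theorem x6b_k1 : (x6b.cls.take x6b.m).map (prF x6b_t.p x6b.n x6b.r) = x6b_t.PR := by decide +kernel

theorem x6b_k2 : (x6b.cls.take x6b.m).map (pkw (Int.ofNat x6b_t.Z) (Int.ofNat (Nat.pow x6b_t.Z x6b.n)) x6b.r) = x6b_t.PM := by decide +kernel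

theorem x6b_k3 : x6b_t.P2.map (fun x => pmb (Int.ofNat x6b_t.B) x.1 x.2 (x6b.cls.take x6b.m)) = x6b_t.MB := by decide +kernel

theorem x6b_e : x6b.cls.all (fun e => bdE x6b_t.MA x6b.n e.1.2 && bdE x6b_t.MA x6b.n e.2.2) = true := by decide +kernel

theorem x6b_xq : x6b_t.XQ.all (fun X => X.all (xm x6b_t.a x6b_t.d x6b_t.S)) = true := by decide +kernel

theorem x6b_xt : x6b_t.XT.all (fun X => X.all (xm x6b_t.a' x6b_t.d' x6b_t.K)) = true := by decide +kernel

theorem x6b_d0_0 : blk (cD x6b x6b_v0) x6b.Q 40 0 = true := by decide +kernel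

theorem x6b_d0_' : ∀ k < 1, blk (cD x6b x6b_v0) x6b.Q 40 k = true
  | 0, _ => x6b_d0_0
  | k + 1, h => absurd h (by omega)

theorem x6b_d1_0 : blk (cD x6b x6b_v1) x6b.Q 40 0 = true := by decide +kernel

theorem x6b_d1_' : ∀ k < 1, blk (cD x6b x6b_v1) x6b.Q 40 k = true
  | 0, _ => x6b_d1_0
  | k + 1, h => absurd h (by omega)

theorem x6b_d2_0 : blk (cD x6b x6b_v2) x6b.Q 40 0 = true := by decide +kernel

theorem x6b_d2_' : ∀ k < 1, blk (cD x6b x6b_v2) x6b.Q 40 k = true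
  | 0, _ => x6b_d2_0
  | k + 1, h => absurd h (by omega)

theorem x6b_d3_0 : blk (cD x6b x6b_v3) x6b.Q 40 0 = true := by decide +kernel

theorem x6b_d3_' : ∀ k < 1, blk (cD x6b x6b_v3) x6b.Q 40 k = true
  | 0, _ => x6b_d3_0
  | k + 1, h => absurd h (by omega)

theorem x6b_x : allI (fun s L => cL x6b x6b_t (x6b_vl.getD s []) s L) x6b_ll 0 = true := by decide +kernel

/-- all checks -/
theorem x6b_ok : ROkX x6b x6b_ll :=
  rOkX_of (A := x6b_t) (VL := x6b_vl) (l4 := 60) (n4 := 1) (lQ := 40) (nQ := 1) (lT := 40) (nT := 1) rfl x6b_0 x6b_om x6b_b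
    (by decide) (by decide +kernel) x6b_r' x6b_g x6b_g' ⟨x6b_k1, x6b_k2, x6b_k3⟩ x6b_e x6b_xq x6b_xt (by decide) (by decide +kernel) x6b_q'
    (by decide) (by decide +kernel) x6b_t' x6b_x
    (List.forall_mem_cons.2 ⟨x6b_d0_', (List.forall_mem_cons.2 ⟨x6b_d1_', (List.forall_mem_cons.2 ⟨x6b_d2_', (List.forall_mem_cons.2 ⟨x6b_d3_', (List.forall_mem_nil _)⟩)⟩)⟩)⟩)

end Pool.Agent.MCX6b
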