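import Pool.Agent.Lib_helper40.MC.P2
import Pool.Agent.Lib_helper40.MC.X6b.Ok
import Pool.Agent.Lib_helper60.N6S.K

/-!
# The classes of the certificate `x6b` are the kept classes of the table
-/

set_option autoImplicit false
set_option maxRecDepth 100000

namespace Pool.Agent.MCX6b

open Pool.Agent.MC Pool.Agent.KC72

/-- the kept classes -/
def kept : List (Mo × Mo) := Pool.Agent.N6S.clsS1.take 16

/-- positions -/
def ia : List ℕ := [15, 1, 10, 7, 5, 6, 12, 13, 2, 4, 14, 3, 8, 0, 9, 11]

/-- positions -/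
def ib : List ℕ := [13, 1, 8, 11, 9, 4, 5, 3, 12, 14, 2, 15, 6, 7, 10, 0]

/-- **the same classes** -/
theorem same : sameC x6b.cls kept = true :=
  sameC_of_pos (a := ia) (b := ib) (by decide +kernel) (by decide +kernel)

theorem n_eq : x6b.n = 7 := rfl

theorem r_eq : x6b.r = 5 := rfl

end Pool.Agent.MCX6b
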